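import Mathlib

open Filter

namespace Pool.Agent.Results.MP_dd6e79_al.NegativeAnswer

universe u

/-- `growth X n` is the number of elements of the semigroup `S` that are products of at most `n`
elements of the finite set `X` (i.e. are represented by nonempty words of length at most `n`
over `X`). -/
noncomputable def growth {S : Type u} [Semigroup S] (X : Finset S) (n : ℕ) : ℕ :=
  Set.ncard {s : S | ∃ w : FreeSemigroup X, w.length ≤ n ∧
    FreeSemigroup.lift (fun x : X => (x : S)) w = s}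

/-- `f ⪯ g`: there is a constant `C ≥ 1` with `f n ≤ C * g (C * n)` for all `n`. -/
def Dominated (f g : ℕ → ℕ) : Prop := ∃ C : ℕ, 1 ≤ C ∧ ∀ n, f n ≤ C * g (C * n)

/-- `f ∼ g`: `f ⪯ g` and `g ⪯ f`. -/
def Equivalent (f g : ℕ → ℕ) : Prop := Dominated f g ∧ Dominated g f

/-- A semigroup is finitely presented if it is given by finitely many generators and finitely many
defining relations. -/
def FinitelyPresented (S : Type u) [Semigroup S] : Prop :=
  ∃ (k : ℕ) (R : Finset (FreeSemigroup (Fin k) × FreeSemigroup (Fin k))),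
    Nonempty (S ≃* (conGen (fun a b => (a, b) ∈ R)).Quotient)

/-! ### Basic facts on the growth function -/

section growth

variable {S : Type u} [Semigroup S]

/-- the set counted by `growth` -/
def ball (X : Finset S) (n : ℕ) : Set S :=
  {s : S | ∃ w : FreeSemigroup X, w.length ≤ n ∧ FreeSemigroup.lift (fun x : X => (x : S)) w = s}

lemma growth_def (X : Finset S) (n : ℕ) : growth X n = (ball X n).ncard := rfl

omit [Semigroup S] in
lemma finite_words (X : Finset S) (n : ℕ) : {w : FreeSemigroup X | w.length ≤ n}.Finite := by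
  have h := List.finite_length_le X n
  refine Set.Finite.of_finite_image (f := fun w : FreeSemigroup X => w.head :: w.tail)
    (h.subset ?_) ?_
  · rintro _ ⟨w, hw, rfl⟩
    simpa [FreeSemigroup.length] using hw
  · intro a _ b _ hab
    cases a; cases b
    simpa using hab

lemma ball_finite (X : Finset S) (n : ℕ) : (ball X n).Finite := by
  refine ((finite_words X n).image (FreeSemigroup.lift (fun x : X => (x : S)))).subset ?_
  rintro s ⟨w, hw, rfl⟩
  exact ⟨w, hw, rfl⟩

lemma growth_mono (X : Finset S) : Monotone (growth X) := by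
  intro m n h
  rw [growth_def, growth_def]
  refine Set.ncard_le_ncard ?_ (ball_finite X n)
  rintro s ⟨w, hw, rfl⟩
  exact ⟨w, hw.trans h, rfl⟩

/-- splitting a word -/
lemma split_word {α : Type*} (w : FreeSemigroup α) (m : ℕ) (hm : 1 ≤ m) (hw : m < w.length) :
    ∃ u v : FreeSemigroup α, w = u * v ∧ u.length = m ∧ v.length = w.length - m := by
  obtain ⟨a, l⟩ := w
  simp only [FreeSemigroup.length] at hw ⊢
  have h1 : m - 1 < l.length := by omega
  have hd : l.drop (m - 1) = l[m - 1] :: l.drop (m - 1 + 1) := by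
    exact List.drop_eq_getElem_cons h1
  refine ⟨⟨a, l.take (m - 1)⟩, ⟨l[m - 1], l.drop (m - 1 + 1)⟩, ?_, ?_, ?_⟩
  · have : l = l.take (m - 1) ++ l[m - 1] :: l.drop (m - 1 + 1) := by
      rw [← hd, List.take_append_drop]
    change (⟨a, l⟩ : FreeSemigroup α) = ⟨a, l.take (m - 1) ++ l[m - 1] :: l.drop (m - 1 + 1)⟩
    rw [← this]
  · simp only [List.length_take]; omega
  · simp only [List.length_drop]; omega


lemma growth_add (X : Finset S) (m n : ℕ) :
    growth X (m + n) + 1 ≤ (growth X m + 1) * (growth X n + 1) := by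
  classical
  rcases Nat.eq_zero_or_pos m with rfl | hm
  · rw [Nat.zero_add]
    exact Nat.le_mul_of_pos_left _ (Nat.succ_pos _)
  have hsub : ball X (m + n) ⊆ ball X m ∪ (fun p : S × S => p.1 * p.2) '' (ball X m ×ˢ ball X n) := by
    rintro s ⟨w, hw, rfl⟩
    by_cases h : w.length ≤ m
    · exact Or.inl ⟨w, h, rfl⟩
    · obtain ⟨a, b, hab, ha, hb⟩ := split_word w m hm (by omega)
      refine Or.inr ⟨(FreeSemigroup.lift (fun x : X => (x : S)) a,
        FreeSemigroup.lift (fun x : X => (x : S)) b), ⟨⟨a, ha.le, rfl⟩, ⟨b, by omega, rfl⟩⟩, ?_⟩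
      rw [hab, map_mul]
  have hfin : ((ball X m) ×ˢ (ball X n)).Finite := (ball_finite X m).prod (ball_finite X n)
  have h1 : (ball X (m + n)).ncard ≤ (ball X m).ncard + (ball X m).ncard * (ball X n).ncard := by
    calc (ball X (m + n)).ncard
        ≤ (ball X m ∪ (fun p : S × S => p.1 * p.2) '' (ball X m ×ˢ ball X n)).ncard :=
          Set.ncard_le_ncard hsub ((ball_finite X m).union (hfin.image _))
      _ ≤ (ball X m).ncard + ((fun p : S × S => p.1 * p.2) '' (ball X m ×ˢ ball X n)).ncard :=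
          Set.ncard_union_le _ _
      _ ≤ (ball X m).ncard + (ball X m ×ˢ ball X n).ncard := by
          gcongr
          exact Set.ncard_image_le hfin
      _ = _ := by rw [Set.ncard_prod]
  rw [growth_def, growth_def, growth_def]
  nlinarith

lemma growth_mul (X : Finset S) (N k : ℕ) :
    growth X (k * N) + 1 ≤ (growth X N + 1) ^ k := by
  induction k with
  | zero =>
    have : growth X (0 * N) ≤ 0 := by
      rw [growth_def, Nat.zero_mul]
      have : ball X 0 = ∅ := by
        ext s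
        simp only [Set.mem_empty_iff_false, iff_false]
        rintro ⟨w, hw, -⟩
        simp [FreeSemigroup.length] at hw
      rw [this]; simp
    simpa using this
  | succ k ih =>
    have h := growth_add X (k * N) N
    rw [Nat.succ_mul]
    calc _ ≤ _ := h
      _ ≤ (growth X N + 1) ^ k * (growth X N + 1) := Nat.mul_le_mul_right _ ih
      _ = _ := by ring

/-- If the growth function is at most quadratic infinitely often then it is subexponential. -/
lemma subexp (X : Finset S) (C : ℕ) (h : ∃ᶠ n in atTop, growth X n < C * n ^ 2) (q : ℕ) :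
    ∀ᶠ n in atTop, (growth X n) ^ q ≤ 2 ^ n := by
  -- choose `N` with `(growth X N + 1)^(2q) ≤ 2^N`
  obtain ⟨N, hN1, hN⟩ : ∃ N, 1 ≤ N ∧ (growth X N + 1) ^ (2 * q) ≤ 2 ^ N := by
    have h1 : ∀ᶠ n : ℕ in atTop, (C * n ^ 2) ^ (2 * q) ≤ 2 ^ n := by
      have h2 : Tendsto (fun n : ℕ => (n : ℝ) ^ (4 * q) / 2 ^ n) atTop (nhds 0) :=
        tendsto_pow_const_div_const_pow_of_one_lt (4 * q) (by norm_num)
      have h3 : ∀ᶠ n : ℕ in atTop, (n : ℝ) ^ (4 * q) / 2 ^ n < 1 / ((C : ℝ) ^ (2 * q) + 1) :=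
        h2.eventually_lt_const (by positivity)
      filter_upwards [h3] with n hn
      rw [div_lt_div_iff₀ (by positivity) (by positivity)] at hn
      have h4 : ((C : ℝ) * (n : ℝ) ^ 2) ^ (2 * q) ≤ 2 ^ n := by
        have : ((C : ℝ) * (n : ℝ) ^ 2) ^ (2 * q) = (C : ℝ) ^ (2 * q) * (n : ℝ) ^ (4 * q) := by
          rw [mul_pow, ← pow_mul]; congr 2; ring
        rw [this]
        have h5 : 0 ≤ (n : ℝ) ^ (4 * q) := by positivity
        nlinarith
      exact_mod_cast h4
    obtain ⟨N, hN, hN2, hN3⟩ := (h.and_eventually (h1.and (eventually_ge_atTop 1))).exists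
    exact ⟨N, hN3, (Nat.pow_le_pow_left hN _).trans hN2⟩
  filter_upwards [eventually_ge_atTop N] with n hn
  have h1 : n ≤ (n / N + 1) * N := by
    have := Nat.div_add_mod n N
    have := Nat.mod_lt n hN1
    nlinarith
  have h2 : growth X n + 1 ≤ (growth X N + 1) ^ (n / N + 1) :=
    (Nat.add_le_add_right (growth_mono X h1) 1).trans (growth_mul X N _)
  have h3 : ((growth X n) ^ q) ^ 2 ≤ (2 ^ n) ^ 2 := by
    calc ((growth X n) ^ q) ^ 2 ≤ ((growth X n + 1) ^ q) ^ 2 := by gcongr; omega
      _ = (growth X n + 1) ^ (2 * q) := by rw [← pow_mul]; ring_nf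
      _ ≤ ((growth X N + 1) ^ (n / N + 1)) ^ (2 * q) := by gcongr
      _ = ((growth X N + 1) ^ (2 * q)) ^ (n / N + 1) := by rw [← pow_mul, ← pow_mul]; ring_nf
      _ ≤ (2 ^ N) ^ (n / N + 1) := by gcongr
      _ = 2 ^ (N * (n / N) + N) := by rw [← pow_mul]; ring_nf
      _ ≤ 2 ^ (n + n) := by
          apply Nat.pow_le_pow_right (by norm_num)
          have := Nat.mul_div_le n N
          omega
      _ = (2 ^ n) ^ 2 := by rw [← pow_mul]; ring_nf
  exact (Nat.pow_le_pow_iff_left (by norm_num)).mp h3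


lemma growth_le_of_equiv {T : Type*} [Semigroup T] (e : S ≃* T) (X : Finset S) (Y : Finset T)
    (h : ∀ x ∈ X, e x ∈ Y) (n : ℕ) : growth X n ≤ growth Y n := by
  rw [growth_def, growth_def, ← Set.ncard_image_of_injective (ball X n) e.injective]
  refine Set.ncard_le_ncard ?_ (ball_finite Y n)
  rintro _ ⟨s, ⟨w, hw, rfl⟩, rfl⟩
  refine ⟨FreeSemigroup.map (fun y : X => (⟨e y.1, h y.1 y.2⟩ : Y)) w, ?_, ?_⟩
  · rwa [FreeSemigroup.length_map]
  · clear hw
    induction w using FreeSemigroup.recOnMul with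
    | ih1 x => simp
    | ih2 x y _ h2 => simp [map_mul, h2]

/-- The growth function only depends on the isomorphism type. -/
lemma growth_map {T : Type*} [Semigroup T] (e : S ≃* T) (X : Finset S) (n : ℕ) :
    growth (X.map e.toEquiv.toEmbedding) n = growth X n := by
  apply le_antisymm
  · refine growth_le_of_equiv e.symm _ _ ?_ n
    intro y hy
    obtain ⟨x, hx, rfl⟩ := Finset.mem_map.mp hy
    simpa using hx
  · refine growth_le_of_equiv e _ _ ?_ n
    intro x hx
    exact Finset.mem_map.mpr ⟨x, hx, rfl⟩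

end growth

/-! ### The countable family of growth functions of finitely presented semigroups -/

/-- index type: a finite presentation together with a finite subset of the presented semigroup -/
def Idx : Type := Σ k : ℕ, Σ R : Finset (FreeSemigroup (Fin k) × FreeSemigroup (Fin k)),
  Finset (conGen (fun a b => (a, b) ∈ R)).Quotient

instance {α : Type*} [Countable α] : Countable (FreeSemigroup α) := by
  have : Function.Injective (fun w : FreeSemigroup α => (w.head, w.tail)) := by
    intro a b hab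
    cases a; cases b
    simpa using hab
  exact this.countable

instance : Countable Idx := by
  unfold Idx
  have : ∀ (k : ℕ) (R : Finset (FreeSemigroup (Fin k) × FreeSemigroup (Fin k))),
      Countable (conGen (fun a b => (a, b) ∈ R)).Quotient := by
    intro k R
    exact Quotient.countable
  infer_instance

/-- the growth function attached to an index -/
noncomputable def grow (i : Idx) : ℕ → ℕ := growth i.2.2

lemma exists_idx {S : Type u} [Semigroup S] (hS : FinitelyPresented S) (X : Finset S) :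
    ∃ i : Idx, ∀ n, growth X n = grow i n := by
  obtain ⟨k, R, ⟨e⟩⟩ := hS
  exact ⟨⟨k, R, X.map e.toEquiv.toEmbedding⟩, fun n => (growth_map e X n).symm⟩

/-! ### Diagonalisation -/

/-- For countably many eventually true families of properties there is one slowly growing
parameter. -/
lemma diagonal {ι : Type} [Countable ι] (P : ι → ℕ → ℕ → Prop)
    (h : ∀ i c, ∀ᶠ n in atTop, P i c n) :
    ∃ c : ℕ → ℕ, Monotone c ∧ Tendsto c atTop atTop ∧ ∀ i, ∀ᶠ n in atTop, P i (c n) n := by
  classical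
  rcases isEmpty_or_nonempty ι with hι | hι
  · exact ⟨id, monotone_id, tendsto_id, fun i => (hι.false i).elim⟩
  obtain ⟨g, hg⟩ := exists_surjective_nat ι
  have h1 : ∀ m : ℕ, ∃ N : ℕ, ∀ n ≥ N, ∀ i ≤ m, P (g i) m n := by
    intro m
    have : ∀ᶠ n in atTop, ∀ i ∈ Finset.range (m + 1), P (g i) m n := by
      rw [Filter.eventually_all_finset]
      intro i _
      exact h (g i) m
    obtain ⟨N, hN⟩ := eventually_atTop.mp this
    exact ⟨N, fun n hn i hi => hN n hn i (Finset.mem_range.mpr (by omega))⟩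
  choose N hN using h1
  -- a strictly increasing majorant
  let M : ℕ → ℕ := fun m => m + ∑ j ∈ Finset.range (m + 1), N j
  have hM : StrictMono M := by
    refine strictMono_nat_of_lt_succ fun m => ?_
    simp only [M]
    rw [Finset.sum_range_succ _ (m + 1)]
    omega
  have hNM : ∀ m, N m ≤ M m := by
    intro m
    simp only [M]
    have : N m ≤ ∑ j ∈ Finset.range (m + 1), N j :=
      Finset.single_le_sum (f := N) (fun _ _ => Nat.zero_le _) (Finset.mem_range.mpr (by omega))
    omega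
  let c : ℕ → ℕ := fun n => Nat.findGreatest (fun m => M m ≤ n) n
  have hc1 : ∀ n, M 0 ≤ n → M (c n) ≤ n := by
    intro n hn
    exact Nat.findGreatest_spec (P := fun m => M m ≤ n) (Nat.zero_le n) hn
  have hc2 : ∀ m n, M m ≤ n → m ≤ c n := by
    intro m n hmn
    exact Nat.le_findGreatest ((hM.id_le m).trans hmn) hmn
  refine ⟨c, ?_, ?_, ?_⟩
  · intro a b hab
    rcases Nat.lt_or_ge a (M 0) with ha | ha
    · have : c a = 0 := by
        rw [Nat.findGreatest_eq_zero_iff]
        intro k _ _ hk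
        exact absurd (lt_of_lt_of_le ha (hM.monotone (Nat.zero_le k))) (by omega)
      rw [this]; exact Nat.zero_le _
    · exact hc2 _ _ ((hc1 a ha).trans hab)
  · refine tendsto_atTop.mpr fun m => ?_
    filter_upwards [eventually_ge_atTop (M m)] with n hn
    exact hc2 m n hn
  · intro i
    obtain ⟨j, rfl⟩ := hg i
    filter_upwards [eventually_ge_atTop (M j)] with n hn
    have h0 : M 0 ≤ n := (hM.monotone (Nat.zero_le j)).trans hn
    exact hN (c n) n ((hNM _).trans (hc1 n h0)) j (hc2 j n hn)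

/-- the first function -/
lemma exists_first {ι : Type} [Countable ι] (g : ι → ℕ → ℕ) :
    ∃ f₁ : ℕ → ℕ, StrictMono f₁ ∧ Dominated (fun n => n ^ 2) f₁ ∧
      ¬ Equivalent f₁ (fun n => n ^ 2) ∧
      ∀ i, (∀ C : ℕ, ∀ᶠ n in atTop, C * n ^ 2 ≤ g i n) → ∀ᶠ n in atTop, f₁ n ≤ g i n := by
  obtain ⟨c, hc, hct, hcP⟩ := diagonal
    (fun (i : {i : ι // ∀ C : ℕ, ∀ᶠ n in atTop, C * n ^ 2 ≤ g i n}) (c n : ℕ) =>
      (c + 1) * n ^ 2 ≤ g i.1 n) (fun i c => i.2 (c + 1))
  refine ⟨fun n => (c n + 1) * n ^ 2, ?_, ⟨1, le_rfl, fun n => ?_⟩, ?_, fun i hi => ?_⟩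
  · intro a b hab
    have h1 : c a ≤ c b := hc hab.le
    have h2 : a ^ 2 < b ^ 2 := Nat.pow_lt_pow_left hab (by norm_num)
    calc (c a + 1) * a ^ 2 < (c a + 1) * b ^ 2 := Nat.mul_lt_mul_of_pos_left h2 (Nat.succ_pos _)
      _ ≤ (c b + 1) * b ^ 2 := Nat.mul_le_mul_right _ (by omega)
  · simp only [one_mul]
    nlinarith [Nat.zero_le (c n * n ^ 2)]
  · rintro ⟨⟨C, -, hC⟩, -⟩
    obtain ⟨n, hn, hn1⟩ := ((tendsto_atTop.mp hct (C ^ 3)).and (eventually_ge_atTop 1)).exists
    have h1 := hC n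
    simp only at h1
    have h2 : (c n + 1) * n ^ 2 ≤ C ^ 3 * n ^ 2 := by
      calc _ ≤ _ := h1
        _ = _ := by ring
    have h3 := Nat.le_of_mul_le_mul_right h2 (by positivity)
    omega
  · exact hcP ⟨i, hi⟩

/-- the second function -/
lemma exists_second {ι : Type} [Countable ι] (g : ι → ℕ → ℕ) :
    ∃ f₂ : ℕ → ℕ, StrictMono f₂ ∧ Dominated f₂ (fun n => 2 ^ n) ∧
      ¬ Equivalent f₂ (fun n => 2 ^ n) ∧
      ∀ i, (∀ q : ℕ, ∀ᶠ n in atTop, (g i n) ^ q ≤ 2 ^ n) → ∀ᶠ n in atTop, g i n ≤ f₂ n := by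
  obtain ⟨c, hc, hct, hcP⟩ := diagonal
    (fun (i : {i : ι // ∀ q : ℕ, ∀ᶠ n in atTop, (g i n) ^ q ≤ 2 ^ n}) (c n : ℕ) =>
      (g i.1 n) ^ (c + 1) ≤ 2 ^ n) (fun i c => i.2 (c + 1))
  -- `h0 n = ⌊n/(c n + 1)⌋ + 1`, made monotone
  let h0 : ℕ → ℕ := fun n => n / (c n + 1) + 1
  let h : ℕ → ℕ := fun n => (Finset.range (n + 1)).sup h0
  have hmono : Monotone h := by
    intro a b hab
    exact Finset.sup_mono (Finset.range_mono (by omega))
  have hh0 : ∀ n, h0 n ≤ h n := fun n => Finset.le_sup (f := h0) (Finset.mem_range.mpr (by omega))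
  have hup : ∀ n, h n ≤ n + 1 := by
    intro n
    refine Finset.sup_le fun m hm => ?_
    have := Finset.mem_range.mp hm
    have := Nat.div_le_self m (c m + 1)
    simp only [h0]; omega
  have hsmall : ∀ Q : ℕ, 1 ≤ Q → ∀ᶠ n in atTop, Q * h n ≤ n := by
    intro Q hQ
    obtain ⟨M, hM⟩ := eventually_atTop.mp (tendsto_atTop.mp hct (2 * Q))
    filter_upwards [eventually_ge_atTop (Q * (M + 1)), eventually_ge_atTop (2 * Q)] with n h1 h2
    have : h n ≤ n / Q := by
      refine Finset.sup_le fun m hm => ?_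
      have hm' := Finset.mem_range.mp hm
      simp only [h0]
      rw [Nat.le_div_iff_mul_le (by omega)]
      rcases Nat.lt_or_ge m M with hmM | hmM
      · have h3 := Nat.div_le_self m (c m + 1)
        calc (m / (c m + 1) + 1) * Q ≤ (M + 1) * Q := Nat.mul_le_mul_right _ (by omega)
          _ = Q * (M + 1) := Nat.mul_comm _ _
          _ ≤ n := h1
      · have h3 := hM m hmM
        have h4 : m / (c m + 1) ≤ m / (2 * Q) := Nat.div_le_div_left (by omega) (by omega)
        have h5 : m / (2 * Q) * (2 * Q) ≤ m := Nat.div_mul_le_self m (2 * Q)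
        have h6 : (m / (c m + 1)) * Q ≤ m / (2 * Q) * Q := Nat.mul_le_mul_right _ h4
        nlinarith
    calc Q * h n ≤ Q * (n / Q) := Nat.mul_le_mul_left _ this
      _ ≤ n := Nat.mul_div_le n Q
  refine ⟨fun n => 2 ^ (h n) + n, ?_, ⟨3, by norm_num, fun n => ?_⟩, ?_, fun i hi => ?_⟩
  · intro a b hab
    have := Nat.pow_le_pow_right (show 0 < 2 by norm_num) (hmono hab.le)
    simp only
    omega
  · have h1 : 2 ^ h n ≤ 2 ^ (n + 1) := Nat.pow_le_pow_right (by norm_num) (hup n)
    have h2 : n < 2 ^ n := Nat.lt_two_pow_self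
    have h3 : 2 ^ n ≤ 2 ^ (3 * n) := Nat.pow_le_pow_right (by norm_num) (by omega)
    simp only
    rw [pow_succ] at h1
    omega
  · rintro ⟨-, ⟨C, hC1, hC⟩⟩
    obtain ⟨n₀, hn₀⟩ := eventually_atTop.mp (hsmall (2 * C) (by omega))
    -- choose `n = 2 k` with `k` large
    let k := n₀ + 4 * C ^ 2
    have h1 := hn₀ (C * (2 * k)) (by
      have : n₀ ≤ k := Nat.le_add_right _ _
      nlinarith)
    have h2 : h (C * (2 * k)) ≤ k := by
      have h3 : (2 * C) * h (C * (2 * k)) ≤ (2 * C) * k := by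
        calc _ ≤ _ := h1
          _ = _ := by ring
      exact Nat.le_of_mul_le_mul_left h3 (by omega)
    have h3 := hC (2 * k)
    simp only at h3
    have h4 : 2 ^ h (C * (2 * k)) ≤ 2 ^ k := Nat.pow_le_pow_right (by norm_num) h2
    have h5 : k < 2 ^ k := Nat.lt_two_pow_self
    have h6 : 4 * C ^ 2 ≤ k := Nat.le_add_left _ _
    have h7 : 2 ^ (2 * k) = 2 ^ k * 2 ^ k := by rw [two_mul, pow_add]
    rw [h7] at h3
    have h8 : C * (2 ^ h (C * (2 * k)) + C * (2 * k)) ≤ C * 2 ^ k + 2 * C ^ 2 * k := by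
      have := Nat.mul_le_mul_left C h4
      nlinarith
    have h9 : C ≤ C ^ 2 := by nlinarith
    have h10 : 2 ^ k * 2 ^ k ≤ C * 2 ^ k + 2 * C ^ 2 * k := h3.trans h8
    nlinarith
  · filter_upwards [hcP ⟨i, hi⟩] with n hn
    have h1 : g i n ≤ 2 ^ h0 n := by
      by_contra hcon
      push Not at hcon
      have h2 : (2 ^ h0 n) ^ (c n + 1) < (g i n) ^ (c n + 1) :=
        Nat.pow_lt_pow_left hcon (by omega)
      have h3 : 2 ^ n ≤ (2 ^ h0 n) ^ (c n + 1) := by
        rw [← pow_mul]
        apply Nat.pow_le_pow_right (by norm_num)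
        have h4 := Nat.div_add_mod n (c n + 1)
        have h5 := Nat.mod_lt n (show 0 < c n + 1 by omega)
        simp only [h0]
        nlinarith
      omega
    have h2 : 2 ^ h0 n ≤ 2 ^ h n := Nat.pow_le_pow_right (by norm_num) (hh0 n)
    omega

/-- **Negative answer to Q1.** There are strictly increasing functions `f₁, f₂ : ℕ → ℕ` with
`n² ⪯ f₁`, `f₂ ⪯ 2ⁿ`, `f₁ ≁ n²` and `f₂ ≁ 2ⁿ` such that for every finitely presented semigroup `S`
and every finite generating set `X` of `S`, the growth function of `S` with respect to `X` is at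
least `f₁ n` for all large `n`, or at most `f₂ n` for all large `n`. -/
theorem result : ∃ f₁ f₂ : ℕ → ℕ, StrictMono f₁ ∧ StrictMono f₂ ∧
    Dominated (fun n => n ^ 2) f₁ ∧ Dominated f₂ (fun n => 2 ^ n) ∧
    ¬ Equivalent f₁ (fun n => n ^ 2) ∧ ¬ Equivalent f₂ (fun n => 2 ^ n) ∧
    ∀ (S : Type u) [Semigroup S], FinitelyPresented S →
      ∀ X : Finset S, Subsemigroup.closure (X : Set S) = ⊤ →
        (∀ᶠ n in atTop, f₁ n ≤ growth X n) ∨ (∀ᶠ n in atTop, growth X n ≤ f₂ n) := by
  obtain ⟨f₁, h1, h2, h3, h4⟩ := exists_first grow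
  obtain ⟨f₂, k1, k2, k3, k4⟩ := exists_second grow
  refine ⟨f₁, f₂, h1, k1, h2, k2, h3, k3, fun S _ hS X _ => ?_⟩
  obtain ⟨i, hi⟩ := exists_idx hS X
  simp only [hi]
  by_cases h : ∀ C : ℕ, ∀ᶠ n in atTop, C * n ^ 2 ≤ grow i n
  · exact Or.inl (h4 i h)
  · refine Or.inr (k4 i ?_)
    push Not at h
    obtain ⟨C, hC⟩ := h
    exact subexp i.2.2 C hC

end Pool.Agent.Results.MP_dd6e79_al.NegativeAnswer
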